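import Mathlib
import Pool.Agent.H72.NP.Defs
import Pool.Agent.H78.BN.Defs
import Pool.Agent.H80.Poly.More

/-!
# Definitions: the decision problem `B*(d) < 3/4` and coNP-completeness

`BEnc.enc` (file `Pool.Agent.H80.Poly.Basic`) is the encoding by bit strings: natural numbers in
binary, elements of `UNat` in unary, pairs and lists self-delimiting. `InNP`, `NPHard` and
`NPComplete` (file `Pool.Agent.H72.NP.Defs`) refer to Mathlib's Turing machines.
-/

set_option autoImplicit false

namespace Pool.Agent.H49.BD

open Pool.Agent.H72.NP Pool.Agent.H78.BN Pool.Agent.H80.Poly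

/-- Instances: nonempty lists of positive integers. -/
abbrev Instance : Type := {d : List ℕ // d ≠ [] ∧ ∀ x ∈ d, 0 < x}

/-- `B*(d) < 3/4` -/
def Below (d : Instance) : Prop := Bstar d.1.get < 3 / 4

/-- coNP-completeness (polynomial-time many-one reductions): the complement is NP-complete. -/
def CoNPComplete {α A : Type} (e : α → List A) (P : α → Prop) : Prop :=
  NPComplete e (fun a => ¬ P a)

/-- decidability in polynomial time -/
def InP {α A : Type} (e : α → List A) (P : α → Prop) : Prop :=
  ∃ f : α → Bool, PolyTimeFun e Computability.encodeBool f ∧ ∀ a, P a ↔ f a = true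

end Pool.Agent.H49.BD
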