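import Mathlib
import Pool.Agent.H72.NP.ThreeSat
import Pool.Agent.H72.NP.Hard3Sat

/-!
# 3-satisfiability reduces to 3-colourability

Vertices: 0 (true), 1 (false), 2 (base), `3 + 2 i`, `4 + 2 i` (the literals of variable `i < 3 m`,
`m` the number of clauses), and for the clause number `j` the six vertices `3 + 6 m + 6 j + k`,
`k < 6`, of two OR-gadgets.
-/

set_option autoImplicit false

namespace Pool.Agent.H49.BD

open Pool.Agent.H72.NP

/-- the vertex of a literal -/
def litV (l : ℕ × Bool) : ℕ := if l.2 then 3 + 2 * l.1 else 4 + 2 * l.1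

/-- the edges of the vertices of a variable -/
def varE (i : ℕ) : List (ℕ × ℕ) := [(3 + 2 * i, 4 + 2 * i), (3 + 2 * i, 2), (4 + 2 * i, 2)]

/-- the edges of the gadgets of a clause; `g` is the first of its six vertices -/
def clauseE (g : ℕ) (c : Clause3) : List (ℕ × ℕ) :=
  [(g, g + 1), (g + 1, g + 2), (g, g + 2), (g, litV c.1), (g + 1, litV c.2.1),
    (g + 3, g + 4), (g + 4, g + 5), (g + 3, g + 5), (g + 3, g + 2), (g + 4, litV c.2.2),
    (g + 5, 1), (g + 5, 2)]

/-- the number of vertices -/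
def satV (ψ : List Clause3) : ℕ := 3 + 12 * ψ.length

/-- the edges of the graph of a formula -/
def satE (ψ : List Clause3) : List (ℕ × ℕ) :=
  [(0, 1), (1, 2), (0, 2)] ++
    ((List.range (3 * ψ.length)).flatMap varE ++
      ψ.zipIdx.flatMap (fun z => clauseE (3 + 6 * ψ.length + 6 * z.2) z.1))

/-- 3-colourability of the graph with the edge list `E` -/
def Col3 (E : List (ℕ × ℕ)) : Prop := ∃ c : ℕ → Fin 3, ∀ e ∈ E, c e.1 ≠ c e.2

/-- the colour of a truth value -/
def tcol (a : Bool) : Fin 3 := if a then 0 else 1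

theorem or_false' : ∀ f g0 g1 g2 : Fin 3, g0 ≠ g1 → g1 ≠ g2 →
    g0 ≠ g2 → g0 ≠ f → g1 ≠ f → g2 = f := by
  intro f g0 g1 g2 h1 h2 h3 h4 h5
  have k1 := Fin.val_ne_of_ne h1
  have k2 := Fin.val_ne_of_ne h2
  have k3 := Fin.val_ne_of_ne h3
  have k4 := Fin.val_ne_of_ne h4
  have k5 := Fin.val_ne_of_ne h5
  apply Fin.ext
  omega

theorem gad_false (f a1 a2 g0 g1 g2 : Fin 3) (h1 : a1 = f) (h2 : a2 = f) (e1 : g0 ≠ g1)
    (e2 : g1 ≠ g2) (e3 : g0 ≠ g2) (e4 : g0 ≠ a1) (e5 : g1 ≠ a2) : g2 = f :=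
  or_false' f g0 g1 g2 e1 e2 e3 (h1 ▸ e4) (h2 ▸ e5)

theorem lit_cases : ∀ t f b x y : Fin 3, t ≠ f → f ≠ b → t ≠ b → x ≠ y → x ≠ b → y ≠ b →
    (x = t ∧ y = f) ∨ (x = f ∧ y = t) := by
  intro t f b x y h1 h2 h3 h4 h5 h6
  have k1 := Fin.val_ne_of_ne h1
  have k2 := Fin.val_ne_of_ne h2
  have k3 := Fin.val_ne_of_ne h3
  have k4 := Fin.val_ne_of_ne h4
  have k5 := Fin.val_ne_of_ne h5
  have k6 := Fin.val_ne_of_ne h6
  simp only [Fin.ext_iff]
  omega

theorem tcol_ne1 : ∀ b : Bool, tcol (b == true) ≠ tcol (b == false) := by decide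

theorem tcol_ne2 : ∀ b : Bool, tcol b ≠ 2 := by decide

/-- the colours of the six vertices of the gadgets; `a b c` are the truth values of the literals -/
def gcol (a b c : Bool) : ℕ → Fin 3
  | 0 => if a then 1 else (if b then 2 else 0)
  | 1 => if a then 2 else (if b then 1 else 2)
  | 2 => if a || b then 0 else 1
  | 3 => if a || b then 1 else (if c then 2 else 0)
  | 4 => if a || b then 2 else (if c then 1 else 2)
  | _ => 0

/-- the truth value of a literal -/
def litB (v : ℕ → Bool) (l : ℕ × Bool) : Bool := v l.1 == l.2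

/-- the colour of the vertex `n` -/
def colOf (v : ℕ → Bool) (ψ : List Clause3) (n : ℕ) : Fin 3 :=
  if n = 0 then 0 else if n = 1 then 1 else if n = 2 then 2
  else if n < 3 + 6 * ψ.length then
    (if (n - 3) % 2 = 0 then tcol (v ((n - 3) / 2)) else tcol (!v ((n - 3) / 2)))
  else
    match ψ[(n - 3 - 6 * ψ.length) / 6]? with
    | none => 0
    | some c => gcol (litB v c.1) (litB v c.2.1) (litB v c.2.2) ((n - 3 - 6 * ψ.length) % 6)

theorem colOf_lit (v : ℕ → Bool) (ψ : List Clause3) (l : ℕ × Bool) (h : l.1 < 3 * ψ.length) :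
    colOf v ψ (litV l) = tcol (litB v l) := by
  obtain ⟨i, s⟩ := l
  simp only at h
  unfold colOf litV litB
  cases s
  · have h1 : ¬ (4 + 2 * i = 0) := by omega
    have h2 : ¬ (4 + 2 * i = 1) := by omega
    have h3 : ¬ (4 + 2 * i = 2) := by omega
    have h4 : 4 + 2 * i < 3 + 6 * ψ.length := by omega
    have h5 : (4 + 2 * i - 3) % 2 = 1 := by omega
    have h6 : (4 + 2 * i - 3) / 2 = i := by omega
    simp only [Bool.false_eq_true, if_false, h1, h2, h3, h4, if_true, h5, h6]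
    norm_num
  · have h1 : ¬ (3 + 2 * i = 0) := by omega
    have h2 : ¬ (3 + 2 * i = 1) := by omega
    have h3 : ¬ (3 + 2 * i = 2) := by omega
    have h4 : 3 + 2 * i < 3 + 6 * ψ.length := by omega
    have h5 : (3 + 2 * i - 3) % 2 = 0 := by omega
    have h6 : (3 + 2 * i - 3) / 2 = i := by omega
    simp only [if_false, h1, h2, h3, h4, if_true, h5, h6]
    norm_num

theorem colOf_gad (v : ℕ → Bool) (ψ : List Clause3) {c : Clause3} {j k : ℕ}
    (hj : ψ[j]? = some c) (hk : k < 6) :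
    colOf v ψ (3 + 6 * ψ.length + 6 * j + k) =
      gcol (litB v c.1) (litB v c.2.1) (litB v c.2.2) k := by
  unfold colOf
  have h1 : ¬ (3 + 6 * ψ.length + 6 * j + k = 0) := by omega
  have h2 : ¬ (3 + 6 * ψ.length + 6 * j + k = 1) := by omega
  have h3 : ¬ (3 + 6 * ψ.length + 6 * j + k = 2) := by omega
  have h4 : ¬ (3 + 6 * ψ.length + 6 * j + k < 3 + 6 * ψ.length) := by omega
  have h5 : (3 + 6 * ψ.length + 6 * j + k - 3 - 6 * ψ.length) / 6 = j := by omega
  have h6 : (3 + 6 * ψ.length + 6 * j + k - 3 - 6 * ψ.length) % 6 = k := by omega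
  simp only [h1, h2, h3, h4, if_false, h5, h6, hj]

theorem gad_ok (a b c : Bool) (h : a = true ∨ b = true ∨ c = true) :
    gcol a b c 0 ≠ gcol a b c 1 ∧ gcol a b c 1 ≠ gcol a b c 2 ∧ gcol a b c 0 ≠ gcol a b c 2 ∧
    gcol a b c 0 ≠ tcol a ∧ gcol a b c 1 ≠ tcol b ∧ gcol a b c 3 ≠ gcol a b c 4 ∧
    gcol a b c 4 ≠ gcol a b c 5 ∧ gcol a b c 3 ≠ gcol a b c 5 ∧
    gcol a b c 3 ≠ gcol a b c 2 ∧ gcol a b c 4 ≠ tcol c ∧
    gcol a b c 5 ≠ 1 ∧ gcol a b c 5 ≠ 2 := by
  revert a b c
  decide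

theorem col3_of_sat {ψ : List Clause3} (hd : Dense ψ) (h : Sat3 ψ) : Col3 (satE ψ) := by
  obtain ⟨v, hv⟩ := h
  refine ⟨colOf v ψ, ?_⟩
  intro e he
  unfold satE at he
  rw [List.mem_append, List.mem_append] at he
  rcases he with he | he | he
  · simp only [List.mem_cons, List.not_mem_nil, or_false] at he
    rcases he with rfl | rfl | rfl <;> simp [colOf]
  · rw [List.mem_flatMap] at he
    obtain ⟨i, hi, he⟩ := he
    rw [List.mem_range] at hi
    have h1 := colOf_lit v ψ (i, true) hi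
    have h2 := colOf_lit v ψ (i, false) hi
    have h3 : colOf v ψ 2 = 2 := by simp [colOf]
    simp only [litV, if_true, Bool.false_eq_true, if_false] at h1 h2
    simp only [varE, List.mem_cons, List.not_mem_nil, or_false] at he
    rcases he with rfl | rfl | rfl
    · simp only [h1, h2, litB]
      exact tcol_ne1 _
    · simp only [h1, h3]
      exact tcol_ne2 _
    · simp only [h2, h3]
      exact tcol_ne2 _
  · rw [List.mem_flatMap] at he
    obtain ⟨⟨c, j⟩, hz, he⟩ := he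
    have hj : ψ[j]? = some c := by
      rw [List.mem_zipIdx_iff_getElem?] at hz
      exact hz
    have hc : c ∈ ψ := List.mem_of_getElem? hj
    obtain ⟨d1, d2, d3⟩ := hd c hc
    have hs := hv c hc
    have g := fun k (hk : k < 6) => colOf_gad v ψ hj (k := k) hk
    have ok := gad_ok (litB v c.1) (litB v c.2.1) (litB v c.2.2) (by
      unfold litB
      simpa using hs)
    have l1 := colOf_lit v ψ c.1 d1
    have l2 := colOf_lit v ψ c.2.1 d2
    have l3 := colOf_lit v ψ c.2.2 d3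
    have c1 : colOf v ψ 1 = 1 := by simp [colOf]
    have c2 : colOf v ψ 2 = 2 := by simp [colOf]
    have g0 := g 0 (by norm_num)
    have g1 := g 1 (by norm_num)
    have g2 := g 2 (by norm_num)
    have g3 := g 3 (by norm_num)
    have g4 := g 4 (by norm_num)
    have g5 := g 5 (by norm_num)
    rw [Nat.add_zero] at g0
    obtain ⟨o1, o2, o3, o4, o5, o6, o7, o8, o9, o10, o11, o12⟩ := ok
    simp only [clauseE, List.mem_cons, List.not_mem_nil, or_false] at he
    rcases he with rfl | rfl | rfl | rfl | rfl | rfl | rfl | rfl | rfl | rfl | rfl | rfl <;>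
      simp only [g0, g1, g2, g3, g4, g5, l1, l2, l3, c1, c2] <;> assumption

theorem sat_of_col3 {ψ : List Clause3} (hd : Dense ψ) (h : Col3 (satE ψ)) : Sat3 ψ := by
  obtain ⟨c, hc⟩ := h
  have h0 : c 0 ≠ c 1 ∧ c 1 ≠ c 2 ∧ c 0 ≠ c 2 := by
    refine ⟨hc (0, 1) ?_, hc (1, 2) ?_, hc (0, 2) ?_⟩ <;>
      (unfold satE; rw [List.mem_append]; left; simp)
  have hvar : ∀ i < 3 * ψ.length, c (3 + 2 * i) ≠ c (4 + 2 * i) ∧ c (3 + 2 * i) ≠ c 2 ∧
      c (4 + 2 * i) ≠ c 2 := by
    intro i hi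
    refine ⟨hc (3 + 2 * i, 4 + 2 * i) ?_, hc (3 + 2 * i, 2) ?_, hc (4 + 2 * i, 2) ?_⟩ <;>
      (unfold satE; rw [List.mem_append, List.mem_append]; right; left
       rw [List.mem_flatMap]; exact ⟨i, List.mem_range.2 hi, by simp [varE]⟩)
  have hlit : ∀ l : ℕ × Bool, l.1 < 3 * ψ.length →
      ¬ (decide (c (3 + 2 * l.1) = c 0) = l.2) → c (litV l) = c 1 := by
    intro l hl hne
    obtain ⟨i, s⟩ := l
    obtain ⟨v1, v2, v3⟩ := hvar i hl
    rcases lit_cases _ _ _ _ _ h0.1 h0.2.1 h0.2.2 v1 v2 v3 with ⟨e1, e2⟩ | ⟨e1, e2⟩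
    · cases s
      · simp [litV, e2]
      · exact absurd (by simp [e1]) hne
    · cases s
      · exact absurd (by simp [e1, h0.1.symm]) hne
      · simp [litV, e1]
  refine ⟨fun i => decide (c (3 + 2 * i) = c 0), ?_⟩
  intro cl hcl
  by_contra hcon
  rw [not_or, not_or] at hcon
  obtain ⟨n1, n2, n3⟩ := hcon
  obtain ⟨d1, d2, d3⟩ := hd cl hcl
  have a1 := hlit cl.1 d1 n1
  have a2 := hlit cl.2.1 d2 n2
  have a3 := hlit cl.2.2 d3 n3
  obtain ⟨j, hj⟩ := List.getElem?_of_mem hcl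
  have hE : ∀ e ∈ clauseE (3 + 6 * ψ.length + 6 * j) cl, c e.1 ≠ c e.2 := by
    intro e he
    apply hc
    unfold satE
    rw [List.mem_append, List.mem_append]
    right; right
    rw [List.mem_flatMap]
    exact ⟨(cl, j), by rw [List.mem_zipIdx_iff_getElem?]; exact hj, he⟩
  generalize 3 + 6 * ψ.length + 6 * j = g at hE
  simp only [clauseE, List.forall_mem_cons, List.not_mem_nil, false_imp_iff, implies_true,
    and_true] at hE
  obtain ⟨e1, e2, e3, e4, e5, e6, e7, e8, e9, e10, e11, e12⟩ := hE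
  have f2 := gad_false _ _ _ _ _ _ a1 a2 e1 e2 e3 e4 e5
  have f5 := gad_false _ _ _ _ _ _ f2 a3 e6 e7 e8 e9 e10
  exact e11 f5

theorem sat3_iff {ψ : List Clause3} (hd : Dense ψ) : Sat3 ψ ↔ Col3 (satE ψ) :=
  ⟨col3_of_sat hd, sat_of_col3 hd⟩

theorem satE_lt {ψ : List Clause3} (hd : Dense ψ) : ∀ e ∈ satE ψ, e.1 < satV ψ ∧ e.2 < satV ψ := by
  have hl : ∀ l : ℕ × Bool, l.1 < 3 * ψ.length → litV l < 3 + 6 * ψ.length := by
    intro l hl
    unfold litV
    split_ifs <;> omega
  intro e he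
  unfold satE at he
  unfold satV
  rw [List.mem_append, List.mem_append] at he
  rcases he with he | he | he
  · simp only [List.mem_cons, List.not_mem_nil, or_false] at he
    rcases he with rfl | rfl | rfl <;> constructor <;> simp <;> omega
  · rw [List.mem_flatMap] at he
    obtain ⟨i, hi, he⟩ := he
    rw [List.mem_range] at hi
    simp only [varE, List.mem_cons, List.not_mem_nil, or_false] at he
    rcases he with rfl | rfl | rfl <;> constructor <;> simp only <;> omega
  · rw [List.mem_flatMap] at he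
    obtain ⟨⟨c, j⟩, hz, he⟩ := he
    have hj : ψ[j]? = some c := by
      rw [List.mem_zipIdx_iff_getElem?] at hz
      exact hz
    have hjl : j < ψ.length := by
      rw [List.getElem?_eq_some_iff] at hj
      exact hj.1
    obtain ⟨d1, d2, d3⟩ := hd c (List.mem_of_getElem? hj)
    have l1 := hl _ d1
    have l2 := hl _ d2
    have l3 := hl _ d3
    simp only [clauseE, List.mem_cons, List.not_mem_nil, or_false] at he
    rcases he with rfl | rfl | rfl | rfl | rfl | rfl | rfl | rfl | rfl | rfl | rfl | rfl <;>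
      constructor <;> simp only <;> omega

end Pool.Agent.H49.BD
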