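import Mathlib
import Pool.Agent.H49.BD.Color3
import Pool.Agent.H78.BN.Color

/-!
# The instance of a graph whose vertices are numbers, and its computation in polynomial time
-/

set_option autoImplicit false

namespace Pool.Agent.H49.BD

open Pool.Agent.H72.NP Pool.Agent.H78.BN Pool.Agent.H80.Poly

/-- the list of offsets of a graph with vertices `0, …, V - 1` and edge list `E` -/
def rhoN (V : ℕ) (E : List (ℕ × ℕ)) : List ℕ :=
  (List.range V).map (fun i : ℕ => 12 * 27 ^ (V - 1 - i)) ++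
    E.map (fun e : ℕ × ℕ => 2 * 27 ^ V + 4 * 27 ^ (V - 1 - e.1) - 4 * 27 ^ (V - 1 - e.2))

/-- the instance -/
def instN (V : ℕ) (E : List (ℕ × ℕ)) : List ℕ := fam (27 ^ V) (rhoN V E)

theorem exists_fin (V : ℕ) (E : List (ℕ × ℕ)) (h : ∀ e ∈ E, e.1 < V ∧ e.2 < V) :
    ∃ E' : List (Fin V × Fin V), E'.map (fun e => ((e.1 : ℕ), (e.2 : ℕ))) = E := by
  induction E with
  | nil => exact ⟨[], rfl⟩
  | cons e E ih =>
    obtain ⟨E', hE'⟩ := ih (fun x hx => h x (List.mem_cons_of_mem _ hx))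
    obtain ⟨h1, h2⟩ := h e (List.mem_cons_self ..)
    exact ⟨(⟨e.1, h1⟩, ⟨e.2, h2⟩) :: E', by rw [List.map_cons, hE']⟩

theorem rhoN_eq (V : ℕ) (E' : List (Fin V × Fin V)) :
    rhoN V (E'.map (fun e => ((e.1 : ℕ), (e.2 : ℕ)))) = colorRho V E' := by
  unfold rhoN colorRho
  rw [List.map_map]
  congr 1
  rw [← List.map_coe_finRange_eq_range, List.map_map]
  rfl

theorem instN_iff (V : ℕ) (E : List (ℕ × ℕ)) (h : ∀ e ∈ E, e.1 < V ∧ e.2 < V) :
    (∀ x ∈ instN V E, 0 < x) ∧ (Bstar (instN V E).get < 3 / 4 ↔ ¬ Col3 E) := by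
  obtain ⟨E', rfl⟩ := exists_fin V E h
  have hQ : 0 < 27 ^ V := by positivity
  have hρ := colorRho_lt V E'
  have e : instN V (E'.map (fun e => ((e.1 : ℕ), (e.2 : ℕ)))) = colorInstance V E' := by
    unfold instN colorInstance
    rw [rhoN_eq]
  rw [e]
  constructor
  · intro x hx
    have := fam_pos (27 ^ V) hQ (colorRho V E') hρ x hx
    omega
  · have h1 : Bstar (colorInstance V E').get < 3 / 4 ↔
        ¬ ∃ c : Fin V → Fin 3, ∀ e ∈ E', c e.1 ≠ c e.2 := by
      rw [← color_iff V E']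
      exact fam_iff (27 ^ V) hQ (colorRho V E') hρ (colorRho_ndvd V E')
    rw [h1, not_iff_not]
    constructor
    · rintro ⟨c, hc⟩
      refine ⟨fun i => if hi : i < V then c ⟨i, hi⟩ else 0, ?_⟩
      intro e he
      rw [List.mem_map] at he
      obtain ⟨e', he', rfl⟩ := he
      simpa using hc e' he'
    · rintro ⟨c, hc⟩
      refine ⟨fun i => c i, ?_⟩
      intro e he
      exact hc _ (List.mem_map_of_mem he)

/-! ### Polynomial time -/

section Poly

variable {α : Type} [BEnc α]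

theorem foldl_pow (B : ℕ) (n s : ℕ) :
    (List.replicate n ()).foldl (fun s _ => B * s) s = B ^ n * s := by
  induction n generalizing s with
  | zero => simp
  | succ n ih =>
    rw [List.replicate_succ, List.foldl_cons, ih, pow_succ]
    ring

/-- powers with a polynomially bounded exponent -/
theorem polyTime_powU (B : ℕ) {n : α → ℕ} (hn : PolyTime n)
    (hb : ∃ b, PB b ∧ ∀ a, n a ≤ b (size a)) : PolyTime (fun a => B ^ n a) := by
  have hw : PolyTime (fun w : α × ℕ × Unit => w) := PolyTime.id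
  have h1 := PolyTime.foldl_add (l := fun a : α => List.replicate (n a) ())
    (f := fun _ => (1 : ℕ)) (h := fun w : α × ℕ × Unit => B * w.2.1)
    (PolyTime.replicateUnit hn hb) (PolyTime.const 1)
    ((PolyTime.const B).mul hw.snd.fst) (by
      refine ⟨fun _ => size B, PB.const _, ?_⟩
      intro a s x _
      have := size_mul_le B s
      simp only
      omega)
  refine h1.congr (fun a => ?_)
  simp only
  rw [foldl_pow, mul_one]

theorem pairsFrom_zipIdx (Q e k : ℕ) (ρ : List ℕ) :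
    pairsFrom Q (e + k) ρ = (ρ.zipIdx k).flatMap
      (fun z => [2 ^ (e + 1 + z.2) * Q - z.1, 2 ^ (e + 1 + z.2) * Q + z.1]) := by
  induction ρ generalizing k with
  | nil => simp [pairsFrom]
  | cons r ρ ih =>
    rw [List.zipIdx_cons, List.flatMap_cons, pairsFrom, ← ih (k + 1)]
    have : e + k + 1 = e + (k + 1) := by ring
    rw [this]
    have h2 : e + (k + 1) = e + 1 + k := by ring
    rw [h2]
    rfl

theorem polyTime_rhoN {V : α → ℕ} {E : α → List (ℕ × ℕ)} (hV : PolyTime V)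
    (hb : ∃ b, PB b ∧ ∀ a, V a ≤ b (size a)) (hE : PolyTime E) :
    PolyTime (fun a => rhoN (V a) (E a)) := by
  obtain ⟨b, ⟨p, hp⟩, hb2⟩ := hb
  have hb3 : ∀ a, V a ≤ p.eval (size a) := fun a => (hb2 a).trans (hp _)
  have hz : PolyTime (fun z : α × ℕ => z) := PolyTime.id
  have hy : PolyTime (fun z : α × (ℕ × ℕ) => z) := PolyTime.id
  have sz : ∀ z : α × ℕ, size z.1 ≤ size z := fun z => by rw [size_prod]; omega
  have sy : ∀ z : α × (ℕ × ℕ), size z.1 ≤ size z := fun z => by rw [size_prod]; omega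
  unfold rhoN
  refine PolyTime.append ?_ ?_
  · refine PolyTime.map (l := fun a => List.range (V a))
      (g := fun z : α × ℕ => 12 * 27 ^ (V z.1 - 1 - z.2)) (hV.range ⟨_, PB.eval p, hb3⟩) ?_
    refine (PolyTime.const 12).mul (polyTime_powU 27 ?_ ⟨_, PB.eval p, fun z => ?_⟩)
    · exact ((hV.comp hz.fst).sub (PolyTime.const 1)).sub hz.snd
    · have h1 := hb3 z.1
      have h2 := Pool.Agent.H80.Poly.eval_mono p (sz z)
      omega
  · refine PolyTime.map (l := E)
      (g := fun z : α × (ℕ × ℕ) => 2 * 27 ^ (V z.1) + 4 * 27 ^ (V z.1 - 1 - z.2.1) -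
        4 * 27 ^ (V z.1 - 1 - z.2.2)) hE ?_
    have hVz : PolyTime (fun z : α × (ℕ × ℕ) => V z.1) := hV.comp hy.fst
    have bV : ∀ z : α × (ℕ × ℕ), V z.1 ≤ p.eval (size z) := fun z =>
      (hb3 z.1).trans (Pool.Agent.H80.Poly.eval_mono p (sy z))
    refine PolyTime.sub (PolyTime.add ?_ ?_) ?_
    · exact (PolyTime.const 2).mul (polyTime_powU 27 hVz ⟨_, PB.eval p, bV⟩)
    · refine (PolyTime.const 4).mul (polyTime_powU 27
        ((hVz.sub (PolyTime.const 1)).sub hy.snd.fst) ⟨_, PB.eval p, fun z => ?_⟩)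
      have := bV z
      omega
    · refine (PolyTime.const 4).mul (polyTime_powU 27
        ((hVz.sub (PolyTime.const 1)).sub hy.snd.snd) ⟨_, PB.eval p, fun z => ?_⟩)
      have := bV z
      omega

theorem polyTime_instN {V : α → ℕ} {E : α → List (ℕ × ℕ)} (hV : PolyTime V)
    (hb : ∃ b, PB b ∧ ∀ a, V a ≤ b (size a)) (hE : PolyTime E) :
    PolyTime (fun a => instN (V a) (E a)) := by
  have hρ := polyTime_rhoN hV hb hE
  have hQ := polyTime_powU 27 hV hb
  have hw : PolyTime (fun w : α × (ℕ × ℕ) => w) := PolyTime.id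
  have key : ∀ a, instN (V a) (E a) =
      [27 ^ V a, 27 ^ V a, 27 ^ V a, 27 ^ V a, 4 * 27 ^ V a, 8 * 27 ^ V a, 16 * 27 ^ V a] ++
      (rhoN (V a) (E a)).zipIdx.flatMap
        (fun z => [2 ^ (4 + z.2) * 27 ^ V a - z.1, 2 ^ (4 + z.2) * 27 ^ V a + z.1]) := by
    intro a
    unfold instN fam
    rw [← pairsFrom_zipIdx (27 ^ V a) 3 0]
  refine PolyTime.congr ?_ (fun a => (key a).symm)
  refine PolyTime.append ?_ ?_
  · exact hQ.cons (hQ.cons (hQ.cons (hQ.cons (((PolyTime.const 4).mul hQ).cons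
      (((PolyTime.const 8).mul hQ).cons (((PolyTime.const 16).mul hQ).cons
        (PolyTime.const [])))))))
  · obtain ⟨b, ⟨p, hp⟩, hb2⟩ := hρ.size_le
    have hlen : ∀ a, (rhoN (V a) (E a)).length ≤ p.eval (size a) := fun a =>
      (length_le_size _).trans ((hb2 a).trans (hp _))
    have hn : PolyTime (fun w : α × (ℕ × ℕ) => Min.min (4 + w.2.2)
        (4 + (rhoN (V w.1) (E w.1)).length)) :=
      ((PolyTime.const 4).add hw.snd.snd).min
        ((PolyTime.const 4).add ((hρ.comp hw.fst).length))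
    have hpow : PolyTime (fun w : α × (ℕ × ℕ) => 2 ^ (Min.min (4 + w.2.2)
        (4 + (rhoN (V w.1) (E w.1)).length))) := by
      refine polyTime_powU 2 hn ⟨fun n => 4 + p.eval n, (PB.const 4).add (PB.eval p), ?_⟩
      intro w
      have h1 := hlen w.1
      have h3 : size w.1 ≤ size w := by rw [size_prod]; omega
      have h4 := Pool.Agent.H80.Poly.eval_mono p h3
      have h5 : Min.min (4 + w.2.2) (4 + (rhoN (V w.1) (E w.1)).length) ≤
        4 + (rhoN (V w.1) (E w.1)).length := Nat.min_le_right _ _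
      refine h5.trans ?_
      show 4 + (rhoN (V w.1) (E w.1)).length ≤ 4 + p.eval (size w)
      omega
    have hm := hpow.mul (hQ.comp hw.fst)
    have hfm := hρ.zipIdx.flatMap (g := fun w : α × (ℕ × ℕ) =>
      [2 ^ (Min.min (4 + w.2.2) (4 + (rhoN (V w.1) (E w.1)).length)) * 27 ^ V w.1 - w.2.1,
        2 ^ (Min.min (4 + w.2.2) (4 + (rhoN (V w.1) (E w.1)).length)) * 27 ^ V w.1 + w.2.1])
      ((hm.sub hw.snd.fst).cons ((hm.add hw.snd.fst).cons (PolyTime.const [])))
    refine hfm.congr (fun a => ?_)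
    refine List.flatMap_congr (fun z hz => ?_)
    have h1 : z.2 < (rhoN (V a) (E a)).length := by
      have h2 := List.mem_zipIdx_iff_getElem?.1 hz
      rw [List.getElem?_eq_some_iff] at h2
      exact h2.1
    simp only
    rw [Nat.min_eq_left (by omega)]

end Poly

end Pool.Agent.H49.BD
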