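import Mathlib
import Pool.Agent.H49.BD.Inst
import Pool.Agent.H49.BD.Defs

/-!
# Hardness: 3-satisfiability reduces to `B*(d) ≥ 3/4`
-/

set_option autoImplicit false

namespace Pool.Agent.H49.BD

open Pool.Agent.H72.NP Pool.Agent.H78.BN Pool.Agent.H80.Poly

theorem instN_pos (V : ℕ) (hV : 1 ≤ V) (E : List (ℕ × ℕ)) :
    instN V E ≠ [] ∧ ∀ x ∈ instN V E, 0 < x := by
  constructor
  · simp [instN, fam]
  · have hQ : 0 < 27 ^ V := by positivity
    have hp : ∀ i, 27 * 27 ^ (V - 1 - i) ≤ 27 ^ V := by
      intro i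
      calc 27 * 27 ^ (V - 1 - i) = 27 ^ (V - 1 - i + 1) := by ring
        _ ≤ 27 ^ V := Nat.pow_le_pow_right (by norm_num) (by omega)
    intro x hx
    have h := fam_pos (27 ^ V) hQ (rhoN V E) (by
      intro r hr
      simp only [rhoN, List.mem_append, List.mem_map] at hr
      rcases hr with ⟨i, _, rfl⟩ | ⟨e, _, rfl⟩
      · have := hp i
        omega
      · have := hp e.1
        omega) x hx
    omega

theorem polyTime_litV {α : Type} [BEnc α] {l : α → ℕ × Bool} (hl : PolyTime l) :
    PolyTime (fun a => litV (l a)) := by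
  unfold litV
  refine PolyTime.congr (f := fun a => bif (l a).2 then 3 + 2 * (l a).1 else 4 + 2 * (l a).1)
    (PolyTime.cond hl.snd ((PolyTime.const 3).add ((PolyTime.const 2).mul hl.fst))
      ((PolyTime.const 4).add ((PolyTime.const 2).mul hl.fst))) (fun a => ?_)
  cases (l a).2 <;> simp

theorem polyTime_edge {α : Type} [BEnc α] {f g : α → ℕ} (hf : PolyTime f) (hg : PolyTime g) :
    PolyTime (fun a => (f a, g a)) := hf.pair hg

theorem polyTime_addc {α : Type} [BEnc α] {f : α → ℕ} (hf : PolyTime f) (c : ℕ) :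
    PolyTime (fun a => f a + c) := hf.add (PolyTime.const c)

theorem polyTime_clauseE {α : Type} [BEnc α] {g : α → ℕ} {c : α → Clause3} (hg : PolyTime g)
    (hc : PolyTime c) : PolyTime (fun a => clauseE (g a) (c a)) := by
  have l1 := polyTime_litV hc.fst
  have l2 := polyTime_litV hc.snd.fst
  have l3 := polyTime_litV hc.snd.snd
  have k := fun (m : ℕ) => polyTime_addc hg m
  unfold clauseE
  exact (hg.pair (k 1)).cons (((k 1).pair (k 2)).cons ((hg.pair (k 2)).cons ((hg.pair l1).cons
    (((k 1).pair l2).cons (((k 3).pair (k 4)).cons (((k 4).pair (k 5)).cons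
    (((k 3).pair (k 5)).cons (((k 3).pair (k 2)).cons (((k 4).pair l3).cons
    (((k 5).pair (PolyTime.const 1)).cons (((k 5).pair (PolyTime.const 2)).cons
    (PolyTime.const []))))))))))))

theorem polyTime_satE : PolyTime satE := by
  have hψ : PolyTime (fun ψ : List Clause3 => ψ) := PolyTime.id
  have hlen := hψ.length
  have h3 : PolyTime (fun ψ : List Clause3 => 3 * ψ.length) := (PolyTime.const 3).mul hlen
  have hb : ∃ b, PB b ∧ ∀ ψ : List Clause3, 3 * ψ.length ≤ b (size ψ) :=
    ⟨fun n => 3 * n, (PB.const 3).mul PB.id, fun ψ => by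
      have := length_le_size ψ
      show 3 * ψ.length ≤ 3 * size ψ
      omega⟩
  unfold satE
  refine (PolyTime.const _).append (PolyTime.append ?_ ?_)
  · have hz : PolyTime (fun z : List Clause3 × ℕ => z) := PolyTime.id
    refine (h3.range hb).flatMap (g := fun z : List Clause3 × ℕ => varE z.2) ?_
    unfold varE
    have a3 : PolyTime (fun z : List Clause3 × ℕ => 3 + 2 * z.2) :=
      (PolyTime.const 3).add ((PolyTime.const 2).mul hz.snd)
    have a4 : PolyTime (fun z : List Clause3 × ℕ => 4 + 2 * z.2) :=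
      (PolyTime.const 4).add ((PolyTime.const 2).mul hz.snd)
    exact (a3.pair a4).cons ((a3.pair (PolyTime.const 2)).cons ((a4.pair (PolyTime.const 2)).cons
      (PolyTime.const [])))
  · have hz : PolyTime (fun z : List Clause3 × (Clause3 × ℕ) => z) := PolyTime.id
    refine hψ.zipIdx.flatMap (g := fun z : List Clause3 × (Clause3 × ℕ) =>
      clauseE (3 + 6 * z.1.length + 6 * z.2.2) z.2.1) ?_
    exact polyTime_clauseE (((PolyTime.const 3).add ((PolyTime.const 6).mul
      (hlen.comp hz.fst))).add ((PolyTime.const 6).mul hz.snd.snd)) hz.snd.fst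

theorem polyTime_satV : PolyTime satV := by
  have hψ : PolyTime (fun ψ : List Clause3 => ψ) := PolyTime.id
  unfold satV
  exact (PolyTime.const 3).add ((PolyTime.const 12).mul hψ.length)

theorem satV_pos (ψ : List Clause3) : 1 ≤ satV ψ := by unfold satV; omega

/-- the reduction -/
def red (ψ : List Clause3) : Instance :=
  ⟨instN (satV ψ) (satE ψ), instN_pos _ (satV_pos ψ) _⟩

theorem polyTime_red : PolyTime red := by
  refine PolyTime.subtypeMk (f := fun ψ => instN (satV ψ) (satE ψ)) ?_ _
  refine polyTime_instN polyTime_satV ?_ polyTime_satE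
  refine ⟨fun n => 3 + 12 * n, (PB.const 3).add ((PB.const 12).mul PB.id), fun ψ => ?_⟩
  have := length_le_size ψ
  show 3 + 12 * ψ.length ≤ 3 + 12 * size ψ
  omega

theorem npHard_notBelow :
    NPHard (BEnc.enc : Instance → List Bool) (fun d => ¬ Below d) := by
  refine npHard_of_sat3 red polyTime_red ?_
  intro ψ hψ
  rw [sat3_iff hψ]
  have h := (instN_iff (satV ψ) (satE ψ) (satE_lt hψ)).2
  show Col3 (satE ψ) ↔ ¬ Bstar (instN (satV ψ) (satE ψ)).get < 3 / 4
  rw [h, not_not]

end Pool.Agent.H49.BD
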