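import Mathlib
import Pool.Agent.H49.BD.Hard
import Pool.Agent.H78.BN.Generic
import Pool.Agent.H39.NP.Member

/-!
# Short certificates for `B*(d) ≥ 3/4`
-/

set_option autoImplicit false

namespace Pool.Agent.H49.BD

open Pool.Agent.H72.NP Pool.Agent.H78.BN Pool.Agent.H80.Poly

theorem floor_nat (D x b : ℕ) (hD : 0 < D) :
    ⌊(b : ℝ) * ((x : ℝ) / (D : ℝ)) + 1 / 4⌋ = (((4 * b * x + D) / (4 * D) : ℕ) : ℤ) := by
  have hD' : (0 : ℝ) < D := by exact_mod_cast hD
  have h1 := Nat.div_add_mod (4 * b * x + D) (4 * D)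
  have h2 := Nat.mod_lt (4 * b * x + D) (show 0 < 4 * D by omega)
  set q := (4 * b * x + D) / (4 * D) with hq
  set t := (4 * b * x + D) % (4 * D) with ht
  have h1' : (4 * (D : ℝ)) * q + t = 4 * b * x + D := by exact_mod_cast h1
  have h2' : (t : ℝ) < 4 * D := by exact_mod_cast h2
  have h3' : (0 : ℝ) ≤ t := by positivity
  have e : (b : ℝ) * ((x : ℝ) / (D : ℝ)) + 1 / 4 = (4 * b * x + D) / (4 * D) := by
    field_simp
  rw [e, Int.floor_eq_iff]
  push_cast
  constructor
  · rw [le_div_iff₀ (by positivity)]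
    nlinarith
  · rw [div_lt_iff₀ (by positivity)]
    nlinarith

theorem ceil_nat (D x a : ℕ) (hD : 0 < D) :
    ⌈(a : ℝ) * ((x : ℝ) / (D : ℝ)) - 1 / 4⌉ = (((4 * a * x + 3 * D - 1) / (4 * D) : ℕ) : ℤ) := by
  have hD' : (0 : ℝ) < D := by exact_mod_cast hD
  obtain ⟨N, hN⟩ : ∃ N, 4 * a * x + 3 * D = N + 1 := ⟨4 * a * x + 3 * D - 1, by omega⟩
  rw [hN, Nat.add_sub_cancel]
  have h1 := Nat.div_add_mod N (4 * D)
  have h2 := Nat.mod_lt N (show 0 < 4 * D by omega)
  set q := N / (4 * D) with hq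
  set t := N % (4 * D) with ht
  have h1' : (4 * (D : ℝ)) * q + t = N := by exact_mod_cast h1
  have h2' : (t : ℝ) + 1 ≤ 4 * D := by exact_mod_cast h2
  have h3' : (0 : ℝ) ≤ t := by positivity
  have hN' : 4 * (a : ℝ) * x + 3 * D = N + 1 := by exact_mod_cast hN
  have e : (a : ℝ) * ((x : ℝ) / (D : ℝ)) - 1 / 4 = (4 * a * x - D) / (4 * D) := by
    field_simp
  rw [e, Int.ceil_eq_iff]
  push_cast
  constructor
  · rw [lt_div_iff₀ (by positivity)]
    nlinarith
  · rw [div_le_iff₀ (by positivity)]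
    nlinarith

/-- the number of letters `x` which must be placed in the window `(a, b]` -/
def need (D a b x : ℕ) : ℕ := (4 * b * x + D) / (4 * D) - (4 * a * x + 3 * D - 1) / (4 * D)

theorem sum_get (l : List ℕ) (f : ℕ → ℕ) : ∑ i, f (l.get i) = (l.map f).sum := by
  rw [← List.sum_ofFn]
  congr 1
  conv_rhs => rw [← List.ofFn_get l]
  rw [List.map_ofFn]
  rfl

theorem total_get (l : List ℕ) : total l.get = l.sum := by
  unfold total
  rw [sum_get l (fun x => x), List.map_id']

theorem instance_pos (d : Instance) : 0 < d.1.sum := by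
  obtain ⟨l, h1, h2⟩ := d
  cases l with
  | nil => exact absurd rfl h1
  | cons x l =>
    have := h2 x (List.mem_cons_self ..)
    simp only [List.sum_cons]
    omega

theorem below_iff (d : Instance) : Below d ↔ ∀ a b : ℕ, a < b → b ≤ d.1.sum →
    (d.1.map (need d.1.sum a b)).sum ≤ b - a := by
  have hD := instance_pos d
  have hD2 : 0 < total d.1.get := by rw [total_get]; exact hD
  have key : ∀ a b : ℕ, a < b → ((∑ i, max 0 (⌊(b : ℝ) * ((d.1.get i : ℝ) / total d.1.get) + 1 / 4⌋
      - ⌈(a : ℝ) * ((d.1.get i : ℝ) / total d.1.get) - 1 / 4⌉) ≤ (b : ℤ) - a) ↔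
      (d.1.map (need d.1.sum a b)).sum ≤ b - a) := by
    intro a b hab
    rw [total_get]
    have e : ∀ i, max 0 (⌊(b : ℝ) * ((d.1.get i : ℝ) / (d.1.sum : ℕ)) + 1 / 4⌋
      - ⌈(a : ℝ) * ((d.1.get i : ℝ) / (d.1.sum : ℕ)) - 1 / 4⌉) =
        ((need d.1.sum a b (d.1.get i) : ℕ) : ℤ) := by
      intro i
      rw [floor_nat _ _ _ hD, ceil_nat _ _ _ hD]
      unfold need
      omega
    rw [Finset.sum_congr rfl (fun i _ => e i), ← sum_get, ← Nat.cast_sum]
    omega
  unfold Below
  constructor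
  · intro h a b hab _
    exact (key a b hab).1 (hall_of_Bstar_lt d.1.get hD2 h a b hab.le)
  · intro h
    refine Bstar_lt_of_hall d.1.get hD2 (fun a b hab hb => ?_)
    rw [total_get] at hb
    exact (key a b hab).2 (h a b hab hb)

/-- the test of a certificate `c = a (D + 1) + b` -/
def check (z : Instance × ℕ) : Bool :=
  decide (z.2 / (z.1.1.sum + 1) < z.2 % (z.1.1.sum + 1)) &&
    decide (z.2 % (z.1.1.sum + 1) - z.2 / (z.1.1.sum + 1) <
      (z.1.1.map (need z.1.1.sum (z.2 / (z.1.1.sum + 1)) (z.2 % (z.1.1.sum + 1)))).sum)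

theorem polyTime_check : PolyTime check := by
  have hz : PolyTime (fun z : Instance × ℕ => z) := PolyTime.id
  have hl : PolyTime (fun z : Instance × ℕ => (z.1.1 : List ℕ)) := PolyTime.coe.comp hz.fst
  have hD := hl.sum
  have hD1 := hD.succ
  have ha := hz.snd.div hD1
  have hb := hz.snd.mod hD1
  have hw : PolyTime (fun w : (Instance × ℕ) × ℕ => w) := PolyTime.id
  have hneed : PolyTime (fun w : (Instance × ℕ) × ℕ => need w.1.1.1.sum
      (w.1.2 / (w.1.1.1.sum + 1)) (w.1.2 % (w.1.1.1.sum + 1)) w.2) := by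
    have hD' := hD.comp hw.fst
    have ha' := ha.comp hw.fst
    have hb' := hb.comp hw.fst
    unfold need
    exact (((((PolyTime.const 4).mul hb').mul hw.snd).add hD').div
      ((PolyTime.const 4).mul hD')).sub
      ((((((PolyTime.const 4).mul ha').mul hw.snd).add ((PolyTime.const 3).mul hD')).sub
        (PolyTime.const 1)).div ((PolyTime.const 4).mul hD'))
  have hmap := hl.map (g := fun w : (Instance × ℕ) × ℕ => need w.1.1.1.sum
      (w.1.2 / (w.1.1.1.sum + 1)) (w.1.2 % (w.1.1.1.sum + 1)) w.2) hneed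
  exact (ha.lt hb).and ((hb.sub ha).lt hmap.sum)

theorem inNP_notBelow : InNP (BEnc.enc : Instance → List Bool) (fun d => ¬ Below d) := by
  refine Pool.Agent.H39.Front.inNP_of_polyTime_dec (β := ℕ) val
    (PolyTime.val PolyTime.id) check polyTime_check (2 * Polynomial.X + 4) ?_ ?_
  · intro d hd
    rw [below_iff] at hd
    push Not at hd
    obtain ⟨a, b, hab, hb, h⟩ := hd
    set D := d.1.sum with hDd
    have hdiv : (a * (D + 1) + b) / (D + 1) = a := by
      rw [mul_comm, Nat.mul_add_div (by omega), Nat.div_eq_of_lt (by omega), add_zero]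
    have hmod : (a * (D + 1) + b) % (D + 1) = b := by
      rw [mul_comm, Nat.mul_add_mod, Nat.mod_eq_of_lt (by omega)]
    refine ⟨Computability.encodeNat (a * (D + 1) + b), ?_, ?_⟩
    · have h1 : (Computability.encodeNat (a * (D + 1) + b)).length = size (a * (D + 1) + b) := rfl
      have h2 : a * (D + 1) + b ≤ (D + 1) * (D + 1) := by nlinarith
      have h3 := size_nat_mono h2
      have h4 := size_mul_le (D + 1) (D + 1)
      have h5 := size_add_le D 1
      have h6 : size D ≤ size d := size_sum_le d.1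
      have h7 : size (1 : ℕ) ≤ 1 := size_nat_le_self 1
      have h8 : (enc d).length = size d := rfl
      rw [h1, h8]
      simp only [Polynomial.eval_add, Polynomial.eval_mul, Polynomial.eval_X,
        Polynomial.eval_ofNat]
      omega
    · rw [val_encodeNat]
      unfold check
      simp only [← hDd, hdiv, hmod, Bool.and_eq_true, decide_eq_true_eq]
      exact ⟨hab, h⟩
  · intro d c hc
    unfold check at hc
    simp only [Bool.and_eq_true, decide_eq_true_eq] at hc
    rw [below_iff]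
    push Not
    refine ⟨_, _, hc.1, ?_, hc.2⟩
    have := Nat.mod_lt c (show 0 < d.1.sum + 1 by omega)
    omega

theorem npComplete_notBelow :
    NPComplete (BEnc.enc : Instance → List Bool) (fun d => ¬ Below d) :=
  ⟨inNP_notBelow, npHard_notBelow⟩

end Pool.Agent.H49.BD
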