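import Mathlib
import Pool.Agent.H49.BD.Cert
import Pool.Agent.H54.DF.Np

/-!
# The consequence for NP and coNP, and the unary encoding
-/

set_option autoImplicit false

namespace Pool.Agent.H49.BD

open Pool.Agent.H72.NP Pool.Agent.H78.BN Pool.Agent.H80.Poly

/-- If `B*(d) < 3/4` has short certificates then NP is closed under complement. -/
theorem compl_inNP (h : InNP (BEnc.enc : Instance → List Bool) Below) (L : List Bool → Prop)
    (hL : InNP (id : List Bool → List Bool) L) :
    InNP (id : List Bool → List Bool) (fun x => ¬ L x) := by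
  obtain ⟨f, hf, h1, h2⟩ := exists_reduction_sat3 hL
  have key : Pool.Agent.H54.DF.PRed (α := Str) (fun x : Str => ¬ L x) Below := by
    refine ⟨fun x => red (f x), polyTime_red.comp hf, fun x => ?_⟩
    have e1 : L x ↔ Col3 (satE (f x)) := (h1 x).trans (sat3_iff (h2 x))
    have e2 := (instN_iff (satV (f x)) (satE (f x)) (satE_lt (h2 x))).2
    exact (not_congr e1).trans e2.symm
  exact key.inNP h

/-- instances, to be written in unary -/
structure UInstance where
  /-- the instance -/
  inst : Instance

/-- the entries of an instance as unary numbers -/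
def toU (d : Instance) : List UNat := d.1.map UNat.ofNat

theorem toU_inj {d d' : Instance} (h : toU d = toU d') : d = d' := by
  apply Subtype.ext
  have h1 := congrArg (List.map UNat.toNat) h
  unfold toU at h1
  rw [List.map_map, List.map_map] at h1
  have e : UNat.toNat ∘ UNat.ofNat = id := by funext n; rfl
  rwa [e, List.map_id, List.map_id] at h1

instance : BEnc UInstance := ⟨fun u => enc (toU u.inst), fun x y h => by
  have h1 := toU_inj (BEnc.enc_inj h)
  cases x; cases y; simp only at h1; rw [h1]⟩

/-- the test by all windows -/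
def testAll (l : List ℕ) : Bool :=
  (List.range (l.sum + 1)).all (fun a => (List.range (l.sum + 1)).all (fun b =>
    !(decide (a < b)) || decide ((l.map (need l.sum a b)).sum ≤ b - a)))

theorem testAll_iff (d : Instance) : testAll d.1 = true ↔ Below d := by
  rw [below_iff]
  unfold testAll
  simp only [List.all_eq_true, List.mem_range, Bool.or_eq_true, Bool.not_eq_true',
    decide_eq_false_iff_not, decide_eq_true_eq]
  constructor
  · intro h a b hab hb
    rcases h a (by omega) b (by omega) with h1 | h1
    · exact absurd hab h1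
    · exact h1
  · intro h a ha b hb
    by_cases hab : a < b
    · exact Or.inr (h a b hab (by omega))
    · exact Or.inl hab

theorem sum_toNat_le (l : List UNat) : (l.map UNat.toNat).sum ≤ size l := by
  induction l with
  | nil => simp
  | cons x l ih =>
    rw [List.map_cons, List.sum_cons, size_cons, size_unat]
    omega

theorem polyTime_testAll : PolyTime (fun l : List UNat => testAll (l.map UNat.toNat)) := by
  have hl0 : PolyTime (fun l : List UNat => l) := PolyTime.id
  have hx : PolyTime (fun w : List UNat × UNat => w) := PolyTime.id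
  have hl : PolyTime (fun l : List UNat => l.map UNat.toNat) :=
    hl0.map (g := fun w : List UNat × UNat => w.2.toNat) (PolyTime.unatToNat hx.snd)
  have hD := hl.sum
  have hr : PolyTime (fun l : List UNat => List.range ((l.map UNat.toNat).sum + 1)) := by
    refine hD.succ.range ⟨fun n => n + 1, PB.id.add (PB.const 1), fun l => ?_⟩
    have := sum_toNat_le l
    show (l.map UNat.toNat).sum + 1 ≤ size l + 1
    omega
  have hw : PolyTime (fun w : (List UNat × ℕ) × ℕ => w) := PolyTime.id
  have hv : PolyTime (fun w : ((List UNat × ℕ) × ℕ) × ℕ => w) := PolyTime.id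
  have hy : PolyTime (fun w : List UNat × ℕ => w) := PolyTime.id
  have hneed : PolyTime (fun w : ((List UNat × ℕ) × ℕ) × ℕ =>
      need (w.1.1.1.map UNat.toNat).sum w.1.1.2 w.1.2 w.2) := by
    have hD' := hD.comp hv.fst.fst.fst
    have ha' := hv.fst.fst.snd
    have hb' := hv.fst.snd
    unfold need
    exact (((((PolyTime.const 4).mul hb').mul hv.snd).add hD').div
      ((PolyTime.const 4).mul hD')).sub
      ((((((PolyTime.const 4).mul ha').mul hv.snd).add ((PolyTime.const 3).mul hD')).sub
        (PolyTime.const 1)).div ((PolyTime.const 4).mul hD'))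
  have hmap := (hl.comp hw.fst.fst).map (g := fun w : ((List UNat × ℕ) × ℕ) × ℕ =>
      need (w.1.1.1.map UNat.toNat).sum w.1.1.2 w.1.2 w.2) hneed
  have hbody : PolyTime (fun w : (List UNat × ℕ) × ℕ =>
      !(decide (w.1.2 < w.2)) || decide (((w.1.1.map UNat.toNat).map
        (need (w.1.1.map UNat.toNat).sum w.1.2 w.2)).sum ≤ w.2 - w.1.2)) :=
    (hw.fst.snd.lt hw.snd).not.or (hmap.sum.le (hw.snd.sub hw.fst.snd))
  have hin := (hr.comp hy.fst).all (g := fun w : (List UNat × ℕ) × ℕ =>
      !(decide (w.1.2 < w.2)) || decide (((w.1.1.map UNat.toNat).map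
        (need (w.1.1.map UNat.toNat).sum w.1.2 w.2)).sum ≤ w.2 - w.1.2)) hbody
  exact hr.all (g := fun z : List UNat × ℕ => (List.range ((z.1.map UNat.toNat).sum + 1)).all
    (fun b => !(decide (z.2 < b)) || decide (((z.1.map UNat.toNat).map
        (need (z.1.map UNat.toNat).sum z.2 b)).sum ≤ b - z.2))) hin

theorem polyTime_unary : PolyTime (fun u : UInstance => testAll u.inst.1) := by
  have h0 : PolyTime (fun u : UInstance => toU u.inst) := PolyTime.of_enc_eq (fun _ => rfl)
  refine (polyTime_testAll.comp h0).congr (fun u => ?_)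
  unfold toU
  rw [List.map_map]
  have e : UNat.toNat ∘ UNat.ofNat = id := by funext n; rfl
  rw [e, List.map_id]

/-- With numbers in unary, `B*(d) < 3/4` is decided in polynomial time. -/
theorem unary_inP : InP (fun d : Instance => (BEnc.enc (d.1.map UNat.ofNat) : List Bool)) Below := by
  refine ⟨fun d => testAll d.1, ?_, fun d => (testAll_iff d).symm⟩
  obtain ⟨M⟩ := polyTime_unary.tm2
  exact ⟨{ M with outputsFun := fun d => M.outputsFun ⟨d⟩ }⟩

/-- coNP-completeness -/
theorem coNPComplete_below : CoNPComplete (fun d : Instance => (BEnc.enc d.1 : List Bool)) Below :=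
  npComplete_notBelow

end Pool.Agent.H49.BD
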